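import Pool.Agent.Helper39.SR.Unit

/-!
# The case of a small average weight
-/

set_option autoImplicit false

namespace Pool.Agent.Helper50.SW

open Pool.Agent.Helper68.SP Pool.Agent.Helper39.SR

variable {E : Type} [Fintype E] [DecidableEq E]

/-- Average weight at most the smallest weight: one active element is enough. -/
theorem tiny_block {k : ℕ} (M : Fin k → Matroid E) {L : ℕ} (hL : 1 ≤ L) (S : ℕ → Finset E)
    (hSi : ∀ t < L, ∀ i, (M i).Indep (S t : Set E))
    (hSd : ∀ s < L, ∀ t < L, s ≠ t → Disjoint (S s) (S t)) (w : E → ℝ)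
    {s Γ : ℝ} (hs : 0 < s) (hΓ : 1 ≤ Γ)
    (hSw : ∀ t < L, ∀ e ∈ S t, s ≤ w e ∧ w e ≤ Γ * s)
    {p : ℝ} (hp : 0 < p) (hp1 : p ≤ 1) (hLp : 4 * Γ ≤ p ^ 2 * L)
    (hW : (1 / (L : ℝ)) * ∑ t ∈ Finset.range L, ∑ e ∈ S t, w e ≤ s) :
    (4 / 5 : ℝ) * ((1 / (L : ℝ)) * ∑ t ∈ Finset.range L, ∑ e ∈ S t, w e) ≤
      Ex (fun _ => p) (fun R => optC (fun T : Finset E => ∀ i, (M i).Indep (T : Set E)) w
        ((Finset.range L).biUnion S ∩ R)) := by
  classical
  have hrate : IsRate (fun _ : E => p) := fun _ => ⟨hp.le, hp1⟩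
  set Com : Finset E → Prop := fun S => ∀ i, (M i).Indep (S : Set E) with hCom
  have hC0 : Com ∅ := fun i => by simp
  have hLR : (1 : ℝ) ≤ L := by exact_mod_cast hL
  set Q : Finset E := (Finset.range L).biUnion S with hQ
  set W : ℝ := (1 / (L : ℝ)) * ∑ t ∈ Finset.range L, ∑ e ∈ S t, w e with hWd
  -- the number of elements
  have hQc : (L : ℝ) * W ≤ Γ * s * Q.card := by
    have h1 : (L : ℝ) * W = ∑ t ∈ Finset.range L, ∑ e ∈ S t, w e := by
      rw [hWd]
      field_simp
    have h2 : ∑ t ∈ Finset.range L, ∑ e ∈ S t, w e = ∑ e ∈ Q, w e := by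
      rw [hQ, Finset.sum_biUnion]
      exact fun s hs t ht hne => hSd s (Finset.mem_range.1 (Finset.mem_coe.1 hs)) t
        (Finset.mem_range.1 (Finset.mem_coe.1 ht)) hne
    rw [h1, h2]
    have h3 : ∀ e ∈ Q, w e ≤ Γ * s := by
      intro e he
      obtain ⟨t, ht, het⟩ := Finset.mem_biUnion.1 he
      exact (hSw t (Finset.mem_range.1 ht) e het).2
    have h4 := Finset.sum_le_sum h3
    rw [Finset.sum_const, nsmul_eq_mul] at h4
    linarith
  have hW0 : 0 ≤ W := by
    refine mul_nonneg (by positivity) (Finset.sum_nonneg fun t ht => Finset.sum_nonneg fun e he => ?_)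
    exact hs.le.trans (hSw t (Finset.mem_range.1 ht) e he).1
  -- one active element
  let F : Finset (Finset E) := Q.image fun e => {e}
  have hFc : F.card = Q.card := Finset.card_image_of_injective _ Finset.singleton_injective
  have hopt : ∀ R : Finset E,
      s - s * (if ∀ X ∈ F, ¬ X ⊆ R then (1 : ℝ) else 0) ≤ optC Com w (Q ∩ R) := by
    intro R
    by_cases h : ∀ X ∈ F, ¬ X ⊆ R
    · rw [if_pos h]
      have := opt_nonneg (w := w) hC0 (Q ∩ R)
      linarith
    · rw [if_neg h]
      push Not at h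
      obtain ⟨X, hX, hXR⟩ := h
      obtain ⟨e, he, rfl⟩ := Finset.mem_image.1 hX
      obtain ⟨t, ht, het⟩ := Finset.mem_biUnion.1 he
      have ht' := Finset.mem_range.1 ht
      have h1 : Com {e} := fun i => (hSi t ht' i).subset (by
        rw [Finset.coe_singleton]
        exact Set.singleton_subset_iff.2 (Finset.mem_coe.2 het))
      have h2 : ({e} : Finset E) ⊆ Q ∩ R := Finset.subset_inter
        (Finset.singleton_subset_iff.2 he) hXR
      have h3 := le_opt (w := w) h2 h1
      rw [Finset.sum_singleton] at h3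
      have h4 := (hSw t ht' e het).1
      linarith
  refine le_trans ?_ (Ex_mono hrate hopt)
  rw [Ex_sub, Ex_const, Ex_mul_left]
  have hp2 : p ^ 2 ≤ 1 := pow_le_one₀ hp.le hp1
  have hprob : Ex (fun _ => p) (fun R => if ∀ X ∈ F, ¬ X ⊆ R then (1 : ℝ) else 0) ≤
      (1 - p ^ 2) ^ F.card := by
    refine prob_none hp.le hp1 F ?_ ?_
    · intro X hX Y hY hne
      obtain ⟨e, -, rfl⟩ := Finset.mem_image.1 (Finset.mem_coe.1 hX)
      obtain ⟨f, -, rfl⟩ := Finset.mem_image.1 (Finset.mem_coe.1 hY)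
      refine Finset.disjoint_singleton.2 fun h => hne ?_
      rw [h]
    · intro X hX
      obtain ⟨e, -, rfl⟩ := Finset.mem_image.1 hX
      rw [Finset.card_singleton]
      norm_num
  set x : ℝ := W / s with hx
  have hx0 : 0 ≤ x := div_nonneg hW0 hs.le
  have hx1 : x ≤ 1 := (div_le_one hs).2 hW
  have hWx : W = x * s := by
    rw [hx]
    field_simp
  have hexp : (1 - p ^ 2) ^ F.card ≤ Real.exp (-(4 * x)) := by
    have h3 : 1 - p ^ 2 ≤ Real.exp (-(p ^ 2)) := by
      have := Real.add_one_le_exp (-(p ^ 2))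
      linarith
    calc (1 - p ^ 2) ^ F.card ≤ Real.exp (-(p ^ 2)) ^ F.card :=
          pow_le_pow_left₀ (by linarith) h3 _
      _ = Real.exp (-(p ^ 2 * Q.card)) := by
          rw [← Real.exp_nat_mul, hFc]
          congr 1
          ring
      _ ≤ Real.exp (-(4 * x)) := by
          refine Real.exp_le_exp.2 (neg_le_neg ?_)
          have h5 : (L : ℝ) * x ≤ Γ * Q.card := by
            have h6 : (L : ℝ) * x * s ≤ Γ * Q.card * s := by
              rw [hWx] at hQc
              nlinarith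
            exact le_of_mul_le_mul_right h6 hs
          have h7 : 4 * Γ * x ≤ p ^ 2 * (Γ * Q.card) :=
            (mul_le_mul_of_nonneg_right hLp hx0).trans (by
              rw [mul_assoc]
              exact mul_le_mul_of_nonneg_left h5 (by positivity))
          have h8 : Γ * (4 * x) ≤ Γ * (p ^ 2 * Q.card) := by
            linarith
          exact le_of_mul_le_mul_left h8 (by linarith)
  have hfin : (4 / 5 : ℝ) * x ≤ 1 - Real.exp (-(4 * x)) := by
    have h1 : Real.exp (-(4 * x)) * (1 + 4 * x) ≤ 1 := by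
      have h2 : 1 + 4 * x ≤ Real.exp (4 * x) := by
        have := Real.add_one_le_exp (4 * x)
        linarith
      calc Real.exp (-(4 * x)) * (1 + 4 * x) ≤ Real.exp (-(4 * x)) * Real.exp (4 * x) :=
            mul_le_mul_of_nonneg_left h2 (Real.exp_pos _).le
        _ = 1 := by rw [← Real.exp_add]; simp
    have h3 : (1 - 4 / 5 * x) * (1 + 4 * x) ≥ 1 := by nlinarith
    have h4 : Real.exp (-(4 * x)) * (1 + 4 * x) ≤ (1 - 4 / 5 * x) * (1 + 4 * x) := h1.trans h3
    have h5 := le_of_mul_le_mul_right h4 (by linarith : (0 : ℝ) < 1 + 4 * x)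
    linarith
  have h9 := hprob.trans hexp
  rw [hWx]
  have h10 := mul_le_mul_of_nonneg_left h9 hs.le
  nlinarith
end Pool.Agent.Helper50.SW
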